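import Pool.Agent.Lib.MP_fc2a59_co.ALM.Main

set_option autoImplicit false

/-!
# MP_fc2a59_co: almost all cubic graphs are unions of two edge-disjoint trees

For every `ε > 0` and all large even `n`: the number `c` of cyclically 4-edge-connected cubic graphs on `n`
labelled vertices is positive, and at most `ε c` of all cubic graphs on these vertices have fewer than
`(8/5)^n` decompositions into two edge-disjoint trees.

Proof (library `Pool.Agent.Lib.MP_fc2a59_co.ALM`): configuration model; exact first and second moment of the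
number `Y` of partitions of the vertex set into two induced trees; asymptotics of the ratio of the second
moment to the square of the first one (Fourier integrals, Laplace method); numbers of short cycles in the
uniform and in the planted model; method of moments; small subgraph conditioning; cyclically
4-edge-connected graphs have positive probability; `Y > 0` gives the decomposition.
-/

namespace Pool.Agent.Results.MP_fc2a59_co.AlmostAllGraphs

theorem result :
    ∀ ε : ℝ, 0 < ε → ∃ N : ℕ, ∀ n : ℕ, N ≤ n → Even n →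
      0 < {G : SimpleGraph (Fin n) | (∀ v, (G.neighborSet v).ncard = 3) ∧
          ∀ S : Finset (Fin n),
            (∃ (v : Fin n) (q : G.Walk v v), q.IsCycle ∧ ∀ w ∈ q.support, w ∈ S) →
            (∃ (v : Fin n) (q : G.Walk v v), q.IsCycle ∧ ∀ w ∈ q.support, w ∉ S) →
            4 ≤ {e : Fin n × Fin n | e.1 ∈ S ∧ e.2 ∉ S ∧ G.Adj e.1 e.2}.ncard}.ncard ∧
      ({G : SimpleGraph (Fin n) | (∀ v, (G.neighborSet v).ncard = 3) ∧
          ({T : SimpleGraph (Fin n) × SimpleGraph (Fin n) |
            T.1 ⊔ T.2 = G ∧ Disjoint T.1 T.2 ∧ T.1.IsAcyclic ∧ T.2.IsAcyclic ∧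
            (∀ u v, u ∈ T.1.support → v ∈ T.1.support → T.1.Reachable u v) ∧
            (∀ u v, u ∈ T.2.support → v ∈ T.2.support → T.2.Reachable u v)}.ncard : ℝ) <
              (8 / 5) ^ n}.ncard : ℝ) ≤
        ε * ({G : SimpleGraph (Fin n) | (∀ v, (G.neighborSet v).ncard = 3) ∧
          ∀ S : Finset (Fin n),
            (∃ (v : Fin n) (q : G.Walk v v), q.IsCycle ∧ ∀ w ∈ q.support, w ∈ S) →
            (∃ (v : Fin n) (q : G.Walk v v), q.IsCycle ∧ ∀ w ∈ q.support, w ∉ S) →
            4 ≤ {e : Fin n × Fin n | e.1 ∈ S ∧ e.2 ∉ S ∧ G.Adj e.1 e.2}.ncard}.ncard : ℝ) :=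
  Pool.Agent.ALM.plain_of Pool.Agent.ALM.main

end Pool.Agent.Results.MP_fc2a59_co.AlmostAllGraphs
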