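import Pool.Agent.Lib.MP_fc2a59_co.CW.Main

/-!
# MP_fc2a59_co (two edge-disjoint trees in cyclically 4-connected cubic graphs)

The answer is yes for the graphs of cutwidth at most six, planar or not.
-/

set_option autoImplicit false

namespace Pool.Agent.Results.MP_fc2a59_co.CutWidthSix

/-- Every finite simple cubic graph with more than two vertices in which every edge cut separating
two cycles has at least four edges and whose CUTWIDTH IS AT MOST SIX has its edge set split into two
edge-disjoint trees. The hypotheses and the conclusion are those of the frozen statement of the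
problem; the only additional hypothesis is the fourth one: the vertices have distinct positions
`r v` on a line such that for every `t` at most six edges join a vertex with position less than `t`
to a vertex with position at least `t`. -/
theorem result :
    ∀ (V : Type) [Fintype V] [DecidableEq V] (G : SimpleGraph V) [DecidableRel G.Adj],
      2 < Fintype.card V →
      (∀ v, G.degree v = 3) →
      (∀ S : Finset V,
        (∃ (v : V) (q : G.Walk v v), q.IsCycle ∧ ∀ w ∈ q.support, w ∈ S) →
        (∃ (v : V) (q : G.Walk v v), q.IsCycle ∧ ∀ w ∈ q.support, w ∉ S) →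
        4 ≤ ((Finset.univ ×ˢ Finset.univ).filter
              (fun e : V × V => e.1 ∈ S ∧ e.2 ∉ S ∧ G.Adj e.1 e.2)).card) →
      (∃ r : V → ℕ, Function.Injective r ∧ ∀ t : ℕ,
        ((Finset.univ ×ˢ Finset.univ).filter
              (fun e : V × V => r e.1 < t ∧ t ≤ r e.2 ∧ G.Adj e.1 e.2)).card ≤ 6) →
      ∃ T₁ T₂ : SimpleGraph V,
        T₁ ⊔ T₂ = G ∧ Disjoint T₁ T₂ ∧
        T₁.IsAcyclic ∧ T₂.IsAcyclic ∧
        (∀ u v, u ∈ T₁.support → v ∈ T₁.support → T₁.Reachable u v) ∧
        (∀ u v, u ∈ T₂.support → v ∈ T₂.support → T₂.Reachable u v) := by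
  intro V _ _ G _ h2 h3 hc ⟨r, hr, hw⟩
  obtain ⟨χ, hχ⟩ := Pool.CW.good_of_cutwidth h3 h2 hc r hr hw
  exact Pool.Jg.split_of_good G h3 h2 χ hχ

end Pool.Agent.Results.MP_fc2a59_co.CutWidthSix
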