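import Pool.Agent.Lib.MP_fc2a59_co.SqTop

/-!
# MP_fc2a59_co (two edge-disjoint trees in cyclically 4-connected cubic graphs)

The graph splits into two trees when all but at most four vertices lie on 4-cycles.
-/

set_option autoImplicit false

namespace Pool.Agent.Results.MP_fc2a59_co.FourOffCycles

/-- Every finite simple cubic graph with more than two vertices in which every edge cut separating
two cycles has at least four edges and in which ALL BUT AT MOST FOUR VERTICES LIE ON 4-CYCLES has
its edge set split into two edge-disjoint trees. The hypotheses and the conclusion are those of the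
frozen statement of the problem; the only additional hypothesis is the fourth one (through every
vertex `v` outside a set `U` of at most four vertices there is a cycle `v a b c`). -/
theorem result :
    ∀ (V : Type) [Fintype V] [DecidableEq V] (G : SimpleGraph V) [DecidableRel G.Adj],
      2 < Fintype.card V →
      (∀ v, G.degree v = 3) →
      (∀ S : Finset V,
        (∃ (v : V) (q : G.Walk v v), q.IsCycle ∧ ∀ w ∈ q.support, w ∈ S) →
        (∃ (v : V) (q : G.Walk v v), q.IsCycle ∧ ∀ w ∈ q.support, w ∉ S) →
        4 ≤ ((Finset.univ ×ˢ Finset.univ).filter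
              (fun e : V × V => e.1 ∈ S ∧ e.2 ∉ S ∧ G.Adj e.1 e.2)).card) →
      (∃ U : Finset V, U.card ≤ 4 ∧ ∀ v, v ∉ U →
        ∃ a b c, v ≠ b ∧ a ≠ c ∧ G.Adj v a ∧ G.Adj a b ∧ G.Adj b c ∧ G.Adj c v) →
      ∃ T₁ T₂ : SimpleGraph V,
        T₁ ⊔ T₂ = G ∧ Disjoint T₁ T₂ ∧
        T₁.IsAcyclic ∧ T₂.IsAcyclic ∧
        (∀ u v, u ∈ T₁.support → v ∈ T₁.support → T₁.Reachable u v) ∧
        (∀ u v, u ∈ T₂.support → v ∈ T₂.support → T₂.Reachable u v) := by
  intro V _ _ G _ h2 h3 hc h4
  exact Pool.Agent.MP_fc2a59_co.Sq.split_of_four_off h2 h3 hc h4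

end Pool.Agent.Results.MP_fc2a59_co.FourOffCycles
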